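import Pool.Agent.Helper82.SG.St

/-!
# Module NTW of project SG
-/

set_option autoImplicit false

namespace Pool.Agent.Helper10.SG

open Finset Real MeasureTheory Pool.Agent.Helper77.Steiner Pool.Agent.Helper82.SG
open Pool.Agent.Helper18.GP (nlen NConn)
open scoped ENNReal

private lemma net_nonneg {E : Type*} [PseudoMetricSpace E] {V : Finset E} {l : ℝ} (h : Net V l) : 0 ≤ l := by
  induction h with
  | single v => exact le_refl _
  | step h hp w ih => exact add_nonneg ih dist_nonneg

open Classical in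
/-- the top of the piece -/
private noncomputable def topF (cut : ℕ → Prop) (par : ℕ → ℕ) : ℕ → ℕ := fun i =>
  if h : par i < i ∧ ¬ cut i then topF cut par (par i) else i
termination_by i => i
decreasing_by exact h.1

private lemma topF_zero (cut : ℕ → Prop) (par : ℕ → ℕ) : topF cut par 0 = 0 := by
  rw [topF, dif_neg]
  rintro ⟨h, _⟩
  exact absurd h (Nat.not_lt_zero _)

private lemma topF_cut {cut : ℕ → Prop} {par : ℕ → ℕ} {i : ℕ} (h : cut i) : topF cut par i = i := by
  rw [topF, dif_neg]
  rintro ⟨_, h'⟩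
  exact h' h

private lemma topF_uncut {cut : ℕ → Prop} {par : ℕ → ℕ} {i : ℕ} (hp : par i < i) (h : ¬ cut i) :
    topF cut par i = topF cut par (par i) := by
  conv_lhs => rw [topF]
  rw [dif_pos ⟨hp, h⟩]

theorem hNTW (hHF : StHF) (hSEQ : StSEQ) (hSHF : StSHF) (hCORE : StCORE) : StNTW := by
  intro E _ _ K c hK hc0 hc A hA V l hN hAV
  have hl : 0 ≤ l := net_nonneg hN
  have hK' : (1 : ℝ) ≤ K := by exact_mod_cast hK
  have hfac : l ≤ (1 + 4 / (K : ℝ)) * l := by
    have : 0 ≤ 4 / (K : ℝ) * l := by positivity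
    linarith
  by_cases hcard : 2 ≤ A.card
  · obtain ⟨h, hS⟩ := hHF A hcard
    obtain ⟨δ, hδ, hδh⟩ := hS.pos
    obtain ⟨n, x, par, hpar, hfine, hter, hsum⟩ := hSEQ V l hN (δ / 2) (by linarith)
    refine le_of_forall_pos_le_add fun ε hε => ?_
    obtain ⟨U, θ, t, hU, hθ, ht, hte, hsh⟩ := hSHF n K par (fun i => dist (x (par i)) (x i))
      (fun i => h (x (par i))) (ε / 4) hpar (fun i => dist_nonneg) (fun i => hδ.trans_le (hδh _)) hK
      (by linarith)
    have hcfg : Cfg A h n x par K U θ t (fun i => ∃ m, t (par i) < m ∧ m ≤ t i ∧ m % (K * U) = θ)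
        (topF (fun i => ∃ m, t (par i) < m ∧ m ≤ t i ∧ m % (K * U) = θ) par) :=
      { sc := hS
        par_lt := hpar
        fine := fun i h1 h2 => (hfine i h1 h2).trans (by
          have := hδh (x (par i))
          linarith)
        ter := fun a ha => hter a (hAV ha)
        hK := hK
        hU := hU
        t_le := ht
        t_e := hte
        hθ := hθ
        cut_iff := fun i => Iff.rfl
        top0 := topF_zero _ _
        top1 := fun i _ _ hi => topF_cut hi
        top2 := fun i h1 h2 hi => topF_uncut (hpar i h1 h2) hi }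
    have hmain := hCORE A h n x par K U θ t _ _ c hcfg hA hc0 hc
    have h5 : (∑ i ∈ Icc 1 n, dist (x (par i)) (x i)) / K ≤ l / K :=
      div_le_div_of_nonneg_right hsum (by linarith)
    have h6 : 4 * (l / K) = 4 / (K : ℝ) * l := by ring
    have h7 := hmain.trans (add_le_add hsum (mul_le_mul_of_nonneg_left hsh (by norm_num : (0 : ℝ) ≤ 4)))
    have h8 : 4 * ((∑ i ∈ Icc 1 n, dist (x (par i)) (x i)) / K + ε / 4) ≤ 4 * (l / K) + ε := by linarith
    linarith
  · have hc1 : A.card ≤ 1 := by omega
    have hAsp : Asp A (4 * exp (3 * K)) := by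
      intro a _ b _ u hu v hv huv
      exact absurd (Finset.card_le_one.mp hc1 u hu v hv) huv
    exact (hc A hA hAsp V l hN hAV).trans hfac

end Pool.Agent.Helper10.SG
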